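import Pool.Agent.K4H31.GE.Theta

/-! The average of the Gaussian energy over lattices of prime index (for MP_ef2672_gt). -/

open Matrix Filter Finset
open scoped ENNReal Topology

namespace Pool.Agent.K4H31.GE

open Pool.Agent.H160R3.Herm Pool.Agent.TH220.HG

theorem modVec_inj (k p : ℕ) (hp : p ≠ 0) (a : Fin k → ℕ) : Function.Injective (modVec k p a) := by
  intro w w' h
  have h1 : (modMat k p a).mulVec (fun j => (w j : ℝ)) = (modMat k p a).mulVec (fun j => (w' j : ℝ)) := by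
    ext i
    rw [mulVec_modMat, mulVec_modMat, h]
  have h2 : (modMat k p a).mulVec ((fun j => (w j : ℝ)) - (fun j => (w' j : ℝ))) = 0 := by
    rw [Matrix.mulVec_sub, h1, sub_self]
  have hdet : (modMat k p a).det ≠ 0 := by rw [det_modMat]; exact_mod_cast hp
  have h3 := Matrix.eq_zero_of_mulVec_eq_zero hdet h2
  ext j
  have := congrFun h3 j
  simp only [Pi.sub_apply, Pi.zero_apply] at this
  have h4 : (w j : ℝ) = w' j := by linarith
  exact_mod_cast h4

theorem nsq_modMat (k p : ℕ) (a : Fin k → ℕ) (w : Fin (k + 1) → ℤ) :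
    nsq (modMat k p a) w = ∑ i, (modVec k p a w i : ℝ) ^ 2 := by
  unfold nsq
  refine Finset.sum_congr rfl fun i _ => ?_
  rw [mulVec_modMat]

/-- the Gaussian weight -/
noncomputable def gw {n : ℕ} (s : ℝ) (x : Fin n → ℤ) : ℝ≥0∞ :=
  ENNReal.ofReal (Real.exp (-s * ∑ i, (x i : ℝ) ^ 2))

theorem thE_modMat (k p : ℕ) [hp : Fact p.Prime] (a : Fin k → ZMod p) (α : ℝ) :
    thE (modMat k p fun j => (a j).val) α ≤
      ∑' x : {x : Fin (k + 1) → ℤ // x ≠ 0},
        if a ∈ solSet k p x.1 then gw (Real.pi * α / (p : ℝ) ^ ((2 : ℝ) / ((k + 1 : ℕ) : ℝ))) x.1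
          else 0 := by
  classical
  set s := Real.pi * α / (p : ℝ) ^ ((2 : ℝ) / ((k + 1 : ℕ) : ℝ)) with hs
  set Φ : {w : Fin (k + 1) → ℤ // w ≠ 0} → {x : Fin (k + 1) → ℤ // x ≠ 0} := fun w =>
    ⟨modVec k p (fun j => (a j).val) w.1, modVec_ne k p hp.out.ne_zero _ w.2⟩ with hΦ
  have hinj : Function.Injective Φ := by
    intro w w' h
    apply Subtype.ext
    exact modVec_inj k p hp.out.ne_zero _ (congrArg Subtype.val h)
  refine le_trans (le_of_eq ?_) (ENNReal.tsum_comp_le_tsum_of_injective hinj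
    (fun x : {x : Fin (k + 1) → ℤ // x ≠ 0} => if a ∈ solSet k p x.1 then gw s x.1 else 0))
  unfold thE
  refine tsum_congr fun w => ?_
  rw [if_pos (modVec_mem k p a w.1)]
  unfold gw
  congr 2
  rw [nn, nsq_modMat, det_modMat, hs, abs_of_nonneg (Nat.cast_nonneg p)]
  ring

theorem sum_thE (k p : ℕ) [hp : Fact p.Prime] (α : ℝ) :
    ∑ a : Fin k → ZMod p, thE (modMat k p fun j => (a j).val) α ≤
      ∑' x : {x : Fin (k + 1) → ℤ // x ≠ 0}, ((solSet k p x.1).card : ℝ≥0∞) *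
        gw (Real.pi * α / (p : ℝ) ^ ((2 : ℝ) / ((k + 1 : ℕ) : ℝ))) x.1 := by
  classical
  refine (Finset.sum_le_sum fun a _ => thE_modMat k p a α).trans (le_of_eq ?_)
  rw [← Summable.tsum_finsetSum (fun _ _ => ENNReal.summable)]
  refine tsum_congr fun x => ?_
  rw [← Finset.sum_filter, Finset.sum_const, nsmul_eq_mul]
  congr 3
  ext a
  simp

/-- the multiples of `p` -/
theorem card_bound (k p : ℕ) [hp : Fact p.Prime] (x : Fin (k + 1) → ℤ) [Decidable (∀ i, (p : ℤ) ∣ x i)] :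
    ((solSet k p x).card : ℝ≥0∞) ≤ (p : ℝ≥0∞) ^ k * ((p : ℝ≥0∞)⁻¹ +
      if ∀ i, (p : ℤ) ∣ x i then 1 else 0) := by
  classical
  have hp0 : (p : ℝ≥0∞) ≠ 0 := by exact_mod_cast hp.out.ne_zero
  have hpt : (p : ℝ≥0∞) ≠ ⊤ := ENNReal.natCast_ne_top p
  split_ifs with h
  · have h1 : (solSet k p x).card ≤ p ^ k := by
      refine (Finset.card_le_univ _).trans (le_of_eq ?_)
      rw [Fintype.card_pi_const, ZMod.card]
    calc ((solSet k p x).card : ℝ≥0∞) ≤ (p : ℝ≥0∞) ^ k := by exact_mod_cast h1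
      _ = (p : ℝ≥0∞) ^ k * 1 := (mul_one _).symm
      _ ≤ _ := by gcongr; exact le_add_self
  · have h1 : (solSet k p x).card * p ≤ p ^ k := by
      apply card_sol
      by_contra hcon
      push Not at hcon
      exact h fun i => (ZMod.intCast_zmod_eq_zero_iff_dvd _ _).1 (hcon i)
    rw [add_zero, ← div_eq_mul_inv, ENNReal.le_div_iff_mul_le (Or.inl hp0) (Or.inl hpt)]
    exact_mod_cast h1

theorem tsum_mult (k p : ℕ) [hp : Fact p.Prime] (s : ℝ)
    [∀ x : Fin (k + 1) → ℤ, Decidable (∀ i, (p : ℤ) ∣ x i)] :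
    ∑' x : {x : Fin (k + 1) → ℤ // x ≠ 0}, (if ∀ i, (p : ℤ) ∣ x.1 i then (1 : ℝ≥0∞) else 0) * gw s x.1 =
      ∑' y : {y : Fin (k + 1) → ℤ // y ≠ 0}, gw (s * (p : ℝ) ^ 2) y.1 := by
  have hp0 : (p : ℤ) ≠ 0 := by exact_mod_cast hp.out.ne_zero
  set Ψ : {y : Fin (k + 1) → ℤ // y ≠ 0} → {x : Fin (k + 1) → ℤ // x ≠ 0} := fun y =>
    ⟨(p : ℤ) • y.1, smul_ne_zero hp0 y.2⟩ with hΨ
  have hinj : Function.Injective Ψ := by
    intro y y' h
    apply Subtype.ext
    exact smul_right_injective _ hp0 (congrArg Subtype.val h)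
  rw [← hinj.tsum_eq (f := fun x : {x : Fin (k + 1) → ℤ // x ≠ 0} =>
    (if ∀ i, (p : ℤ) ∣ x.1 i then (1 : ℝ≥0∞) else 0) * gw s x.1)]
  · refine tsum_congr fun y => ?_
    have h1 : ∀ i, (p : ℤ) ∣ (Ψ y).1 i := fun i => ⟨y.1 i, by simp [hΨ]⟩
    rw [if_pos h1, one_mul]
    unfold gw
    congr 2
    rw [Finset.mul_sum, Finset.mul_sum]
    refine Finset.sum_congr rfl fun i _ => ?_
    simp only [hΨ, Pi.smul_apply, smul_eq_mul]
    push_cast
    ring
  · intro x hx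
    rw [Function.mem_support] at hx
    have h1 : ∀ i, (p : ℤ) ∣ x.1 i := by
      by_contra hcon
      apply hx
      rw [if_neg hcon, zero_mul]
    choose y hy using h1
    have hxy : x.1 = (p : ℤ) • y := by
      ext i
      rw [hy i]
      simp
    refine ⟨⟨y, ?_⟩, Subtype.ext hxy.symm⟩
    rintro rfl
    apply x.2
    rw [hxy]
    simp

theorem tsum_gw_le {s : ℝ} (hs : 0 < s) (n : ℕ) :
    ∑' x : {x : Fin n → ℤ // x ≠ 0}, gw s x.1 ≤ ENNReal.ofReal ((1 + √(Real.pi / s)) ^ n) :=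
  (ENNReal.tsum_comp_le_tsum_of_injective Subtype.val_injective (gw s)).trans (tsum_gauss_pi hs n)

theorem tsum_gw_le' {c : ℝ} (hc : 0 < c) (n : ℕ) :
    ∑' x : {x : Fin n → ℤ // x ≠ 0}, gw c x.1 ≤
      ENNReal.ofReal (Real.exp (-(c / 2)) * (1 + √(Real.pi / (c / 2))) ^ n) := by
  have h1 : ∀ x : {x : Fin n → ℤ // x ≠ 0}, gw c x.1 ≤
      ENNReal.ofReal (Real.exp (-(c / 2))) * gw (c / 2) x.1 := by
    intro x
    unfold gw
    rw [← ENNReal.ofReal_mul (Real.exp_pos _).le, ← Real.exp_add]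
    apply ENNReal.ofReal_le_ofReal
    apply Real.exp_le_exp.2
    have h2 : (1 : ℝ) ≤ ∑ i, (x.1 i : ℝ) ^ 2 := by
      obtain ⟨i, hi⟩ : ∃ i, x.1 i ≠ 0 := by
        by_contra hcon
        push Not at hcon
        exact x.2 (funext hcon)
      have h3 : (1 : ℝ) ≤ (x.1 i : ℝ) ^ 2 := by
        have : (1 : ℤ) ≤ x.1 i ^ 2 := by
          have := sq_pos_of_ne_zero hi
          omega
        exact_mod_cast this
      exact h3.trans (Finset.single_le_sum (f := fun i => (x.1 i : ℝ) ^ 2)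
        (fun _ _ => sq_nonneg _) (Finset.mem_univ i))
    nlinarith
  calc _ ≤ ∑' x : {x : Fin n → ℤ // x ≠ 0}, ENNReal.ofReal (Real.exp (-(c / 2))) * gw (c / 2) x.1 :=
        ENNReal.tsum_le_tsum h1
    _ = ENNReal.ofReal (Real.exp (-(c / 2))) * ∑' x : {x : Fin n → ℤ // x ≠ 0}, gw (c / 2) x.1 :=
        ENNReal.tsum_mul_left
    _ ≤ ENNReal.ofReal (Real.exp (-(c / 2))) * ENNReal.ofReal ((1 + √(Real.pi / (c / 2))) ^ n) := by
        gcongr
        exact tsum_gw_le (by positivity) n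
    _ = _ := by rw [← ENNReal.ofReal_mul (Real.exp_pos _).le]

/-- the bound for the average -/
noncomputable def avgB (n : ℕ) (α x : ℝ) : ℝ :=
  x⁻¹ * (1 + √(Real.pi / (Real.pi * α / x ^ ((2 : ℝ) / n)))) ^ n +
    Real.exp (-(Real.pi * α / x ^ ((2 : ℝ) / n) * x ^ 2 / 2)) *
      (1 + √(Real.pi / (Real.pi * α / x ^ ((2 : ℝ) / n) * x ^ 2 / 2))) ^ n

theorem exists_avg (k p : ℕ) [hp : Fact p.Prime] {α : ℝ} (hα : 0 < α) :
    ∃ a : Fin k → ZMod p, thE (modMat k p fun j => (a j).val) α ≤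
      ENNReal.ofReal (avgB (k + 1) α p) := by
  classical
  have hp0 : (0 : ℝ) < p := by exact_mod_cast hp.out.pos
  set s := Real.pi * α / (p : ℝ) ^ ((2 : ℝ) / ((k + 1 : ℕ) : ℝ)) with hs
  have hs0 : 0 < s := by rw [hs]; positivity
  have hc0 : 0 < s * (p : ℝ) ^ 2 := by positivity
  have h1 : ∑ a : Fin k → ZMod p, thE (modMat k p fun j => (a j).val) α ≤
      (p : ℝ≥0∞) ^ k * ENNReal.ofReal (avgB (k + 1) α p) := by
    refine (sum_thE k p α).trans ?_
    rw [← hs]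
    calc _ ≤ ∑' x : {x : Fin (k + 1) → ℤ // x ≠ 0}, (p : ℝ≥0∞) ^ k * ((p : ℝ≥0∞)⁻¹ * gw s x.1 +
          (if ∀ i, (p : ℤ) ∣ x.1 i then (1 : ℝ≥0∞) else 0) * gw s x.1) := by
          apply ENNReal.tsum_le_tsum
          intro x
          rw [← add_mul, ← mul_assoc]
          gcongr
          exact card_bound k p x.1
      _ = (p : ℝ≥0∞) ^ k * ((p : ℝ≥0∞)⁻¹ * ∑' x : {x : Fin (k + 1) → ℤ // x ≠ 0}, gw s x.1 +
          ∑' y : {y : Fin (k + 1) → ℤ // y ≠ 0}, gw (s * (p : ℝ) ^ 2) y.1) := by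
          rw [ENNReal.tsum_mul_left, ENNReal.tsum_add, ENNReal.tsum_mul_left, tsum_mult]
      _ ≤ _ := by
          gcongr
          unfold avgB
          rw [← hs, ENNReal.ofReal_add (by positivity) (by positivity),
            ENNReal.ofReal_mul (by positivity), ENNReal.ofReal_inv_of_pos hp0,
            ENNReal.ofReal_natCast]
          gcongr
          · exact tsum_gw_le hs0 _
          · exact tsum_gw_le' hc0 _
  by_contra hcon
  push Not at hcon
  have h2 := ENNReal.sum_lt_sum_of_nonempty (s := (univ : Finset (Fin k → ZMod p)))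
    ⟨0, mem_univ _⟩ (fun a _ => hcon a)
  rw [Finset.sum_const, Finset.card_univ, Fintype.card_pi_const, ZMod.card, nsmul_eq_mul] at h2
  push_cast at h2
  exact absurd (h2.trans_le h1) (lt_irrefl _)

theorem avgB_eq {n : ℕ} (hn : 0 < n) {α x : ℝ} (hα : 0 < α) (hx : 0 < x) :
    x⁻¹ * (1 + √(Real.pi / (Real.pi * α / x ^ ((2 : ℝ) / n)))) ^ n =
      (x ^ (-((1 : ℝ) / n)) + 1 / √α) ^ n := by
  have hn' : (n : ℝ) ≠ 0 := by exact_mod_cast hn.ne'
  have e1 : x⁻¹ = (x ^ (-((1 : ℝ) / n))) ^ n := by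
    rw [← Real.rpow_natCast, ← Real.rpow_mul hx.le]
    have : -((1 : ℝ) / n) * n = -1 := by field_simp
    rw [this, Real.rpow_neg_one]
  have hpi := Real.pi_pos
  have e2 : √(Real.pi / (Real.pi * α / x ^ ((2 : ℝ) / n))) = x ^ ((1 : ℝ) / n) / √α := by
    have : Real.pi / (Real.pi * α / x ^ ((2 : ℝ) / n)) = x ^ ((2 : ℝ) / n) / α := by
      have : 0 < x ^ ((2 : ℝ) / n) := by positivity
      field_simp
    rw [this, Real.sqrt_div (by positivity), Real.sqrt_eq_rpow, ← Real.rpow_mul hx.le]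
    congr 2
    ring
  rw [e1, e2, ← mul_pow]
  congr 1
  have e3 : x ^ (-((1 : ℝ) / n)) * x ^ ((1 : ℝ) / n) = 1 := by
    rw [← Real.rpow_add hx]
    simp
  rw [mul_add, mul_one, mul_div_assoc', e3]

theorem tendsto_avgB {n : ℕ} (hn : 2 ≤ n) {α : ℝ} (hα : 0 < α) :
    Tendsto (avgB n α) atTop (𝓝 ((1 / √α) ^ n)) := by
  have hn' : (2 : ℝ) ≤ n := by exact_mod_cast hn
  have hpi := Real.pi_pos
  have h1 : Tendsto (fun x : ℝ => (x ^ (-((1 : ℝ) / n)) + 1 / √α) ^ n) atTop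
      (𝓝 ((0 + 1 / √α) ^ n)) :=
    ((tendsto_rpow_neg_atTop (by positivity)).add_const _).pow n
  have hc : Tendsto (fun x : ℝ => Real.pi * α / x ^ ((2 : ℝ) / n) * x ^ 2 / 2) atTop atTop := by
    have h2 : Tendsto (fun x : ℝ => Real.pi * α / 2 * x ^ ((2 : ℝ) - 2 / n)) atTop atTop := by
      apply Tendsto.const_mul_atTop (by positivity)
      apply tendsto_rpow_atTop
      rw [sub_pos, div_lt_iff₀ (by linarith)]
      linarith
    refine h2.congr' ?_
    filter_upwards [eventually_gt_atTop 0] with x hx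
    rw [Real.rpow_sub hx, Real.rpow_two]
    ring
  have h3 : Tendsto (fun x : ℝ => Real.exp (-(Real.pi * α / x ^ ((2 : ℝ) / n) * x ^ 2 / 2)) *
      (1 + √(Real.pi / (Real.pi * α / x ^ ((2 : ℝ) / n) * x ^ 2 / 2))) ^ n) atTop
      (𝓝 (0 * (1 + √0) ^ n)) := by
    apply Tendsto.mul
    · exact Real.tendsto_exp_neg_atTop_nhds_zero.comp hc
    · apply Tendsto.pow
      apply Tendsto.const_add
      apply (Real.continuous_sqrt.tendsto 0).comp
      exact hc.const_div_atTop Real.pi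
  have h4 := h1.add h3
  rw [zero_mul, add_zero, zero_add] at h4
  refine h4.congr' ?_
  filter_upwards [eventually_gt_atTop 0] with x hx
  rw [avgB, avgB_eq (by omega) hα hx]

/-- the average bound -/
theorem exists_lattice {n : ℕ} (hn : 2 ≤ n) {α : ℝ} (hα : 0 < α) {ε : ℝ} (hε : 0 < ε) :
    ∃ A : Matrix (Fin n) (Fin n) ℝ, A.det ≠ 0 ∧ theta A α ≤ (1 / √α) ^ n + ε := by
  obtain ⟨k, rfl⟩ : ∃ k, n = k + 1 := ⟨n - 1, by omega⟩
  have h1 := (tendsto_avgB hn hα).eventually (gt_mem_nhds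
    (show (1 / √α) ^ (k + 1) < (1 / √α) ^ (k + 1) + ε by linarith))
  obtain ⟨X, hX⟩ := Filter.eventually_atTop.1 h1
  obtain ⟨p, hp1, hp⟩ := Nat.exists_infinite_primes ⌈X⌉₊
  have : Fact p.Prime := ⟨hp⟩
  have hpX : X ≤ p := (Nat.le_ceil X).trans (by exact_mod_cast hp1)
  obtain ⟨a, ha⟩ := exists_avg k p hα
  have hdet : (modMat k p fun j => (a j).val).det ≠ 0 := by
    rw [det_modMat]
    exact_mod_cast hp.ne_zero
  have hB : 0 ≤ avgB (k + 1) α p := by
    unfold avgB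
    positivity
  exact ⟨_, hdet, (theta_le (by omega) hdet hα hB ha).trans (hX p hpX).le⟩

end Pool.Agent.K4H31.GE
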