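import Pool.Agent.TH220.HG.Gap
import Pool.Agent.H160R3.Herm.Main

/-! Counting lattice points in balls by packing (for MP_ef2672_gt). -/

open MeasureTheory Matrix Metric
open scoped ENNReal

namespace Pool.Agent.K4H31.GE

open Pool.Agent.H160R3.Herm Pool.Agent.TH220.HG

theorem norm_pt {n : ℕ} (A : Matrix (Fin n) (Fin n) ℝ) (w : Fin n → ℤ) :
    dist (pt A w) 0 ^ 2 = nsq A w := by
  have h : pt A 0 = 0 := by
    ext i
    have e : (fun _ : Fin n => (0 : ℝ)) = 0 := rfl
    simp [pt, e]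
  rw [← h, dist_pt, sub_zero]

theorem count_le {n : ℕ} (hn : 0 < n) {A : Matrix (Fin n) (Fin n) ℝ} (hA : A.det ≠ 0) {R : ℝ}
    (hR : 0 ≤ R) : (({w : Fin n → ℤ | nsq A w < R ^ 2 * minSq A}.ncard : ℕ) : ℝ) ≤
      (1 + 2 * R) ^ n := by
  classical
  have hfin := finite_lt hA (R ^ 2 * minSq A)
  set F := hfin.toFinset with hF
  rw [Set.ncard_eq_toFinset_card _ hfin, ← hF]
  have hmin := minSq_pos hn hA
  set l : ℝ := √(minSq A) with hl
  have hl0 : 0 < l := Real.sqrt_pos.2 hmin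
  have hl2 : l ^ 2 = minSq A := Real.sq_sqrt hmin.le
  have hne : Nonempty (Fin n) := ⟨⟨0, hn⟩⟩
  have hnt : Nontrivial (EuclideanSpace ℝ (Fin n)) := inferInstance
  have hsep : ∀ x y : Fin n → ℤ, x ≠ y → l ≤ dist (pt A x) (pt A y) := by
    intro x y hxy
    have h2 : minSq A ≤ nsq A (x - y) := minSq_le A _ (sub_ne_zero.2 hxy)
    rw [← dist_pt, ← hl2] at h2
    exact (sq_le_sq₀ hl0.le dist_nonneg).1 h2
  have hdisj : (F : Set (Fin n → ℤ)).PairwiseDisjoint (fun w => ball (pt A w) (l / 2)) := by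
    intro x _ y _ hxy
    apply ball_disjoint_ball
    have := hsep x y hxy
    linarith
  have hvol := measure_biUnion_finset (μ := (volume : Measure (EuclideanSpace ℝ (Fin n)))) hdisj
    (fun w _ => measurableSet_ball)
  have hsub : (⋃ w ∈ F, ball (pt A w) (l / 2)) ⊆ ball (0 : EuclideanSpace ℝ (Fin n)) ((R + 1 / 2) * l) := by
    intro z hz
    simp only [Set.mem_iUnion] at hz
    obtain ⟨w, hw, hz⟩ := hz
    rw [hF, Set.Finite.mem_toFinset] at hw
    have h1 : dist (pt A w) 0 < R * l := by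
      apply lt_of_pow_lt_pow_left₀ 2 (by positivity)
      rw [norm_pt, mul_pow, hl2]
      exact hw
    rw [mem_ball] at hz ⊢
    have := dist_triangle z (pt A w) 0
    linarith
  have h1 := measure_mono (μ := (volume : Measure (EuclideanSpace ℝ (Fin n)))) hsub
  rw [hvol] at h1
  have hfr : Module.finrank ℝ (EuclideanSpace ℝ (Fin n)) = n := by simp
  simp_rw [Measure.addHaar_ball volume _ (by positivity : (0 : ℝ) ≤ l / 2)] at h1
  rw [Measure.addHaar_ball volume _ (by positivity : (0 : ℝ) ≤ (R + 1 / 2) * l), hfr,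
    Finset.sum_const, nsmul_eq_mul, ← mul_assoc] at h1
  have hB0 : volume (ball (0 : EuclideanSpace ℝ (Fin n)) 1) ≠ 0 :=
    (measure_ball_pos volume _ one_pos).ne'
  have hBt : volume (ball (0 : EuclideanSpace ℝ (Fin n)) 1) ≠ ⊤ := measure_ball_lt_top.ne
  have h2 := (ENNReal.mul_le_mul_iff_left hB0 hBt).1 h1
  rw [← ENNReal.ofReal_natCast, ← ENNReal.ofReal_mul (by positivity),
    ENNReal.ofReal_le_ofReal_iff (by positivity)] at h2
  have e : (1 + 2 * R) ^ n * (l / 2) ^ n = ((R + 1 / 2) * l) ^ n := by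
    rw [← mul_pow]
    congr 1
    ring
  rw [← e] at h2
  exact le_of_mul_le_mul_right h2 (by positivity)

end Pool.Agent.K4H31.GE
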