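import Pool.Agent.K4H31.GE.Main

/-! Limits of minimal Gaussian energies and of `γ_n / n` (for MP_ef2672_gt). -/

open Filter
open scoped Topology

namespace Pool.Agent.K4H31.GE

open Pool.Agent.H160R3.Herm Pool.Agent.TH220.HG

theorem energy_le_lin {n : ℕ} (hn : 0 < n) {α : ℝ} (hα : 0 < α) :
    energy n α ≤ Real.pi * α * (hermite n / n) := by
  have hn' : (0 : ℝ) < n := by exact_mod_cast hn
  have := hermite_pos hn
  exact (energy_le hn hα).trans (Psi_le (by positivity))

theorem dev {n : ℕ} (hn : 2 ≤ n) {α : ℝ} (hα : 1 ≤ α) :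
    |hermite n / n - energy n α / (Real.pi * α)| ≤ 2 / (Real.pi * α) := by
  have hpa : 0 < Real.pi * α := by positivity
  have h1 := energy_ge_hermite hn hα
  have h2 := energy_le_lin (n := n) (by omega) (show 0 < α by linarith)
  have e : hermite n / n - energy n α / (Real.pi * α) =
      (Real.pi * α * (hermite n / n) - energy n α) / (Real.pi * α) := by
    field_simp
  rw [e, abs_div, abs_of_pos hpa, abs_of_nonneg (by linarith)]
  exact div_le_div_of_nonneg_right (by linarith) hpa.le

theorem Psi_mono {x y : ℝ} (hx : 0 < x) (hxy : x ≤ y) : Psi x ≤ Psi y := by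
  rcases le_or_gt (1 / 2) x with h | h
  · unfold Psi
    rw [if_pos h, if_pos (h.trans hxy)]
    exact hxy
  · rw [le_Psi hx h.le]
    rcases le_or_gt (1 / 2) y with h1 | h1
    · have h2 : Real.log (2 * Real.exp 1 * x) ≤ Real.log (Real.exp 1) := by
        apply Real.log_le_log (by positivity)
        have := Real.exp_pos 1
        nlinarith
      rw [Real.log_exp] at h2
      unfold Psi
      rw [if_pos h1]
      linarith
    · rw [le_Psi (hx.trans_le hxy) h1.le]
      apply div_le_div_of_nonneg_right _ (by norm_num)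
      apply Real.log_le_log (by positivity)
      have := Real.exp_pos 1
      nlinarith

/-- convergence along a sequence of inverse temperatures -/
theorem tendsto_iff (α : ℕ → ℝ) (hα : Tendsto α atTop atTop) (L : ℝ) :
    Tendsto (fun n : ℕ => hermite n / n) atTop (𝓝 L) ↔
      Tendsto (fun n : ℕ => energy n (α n) / (Real.pi * α n)) atTop (𝓝 L) := by
  have h0 : Tendsto (fun n : ℕ => hermite n / n - energy n (α n) / (Real.pi * α n)) atTop (𝓝 0) := by
    have h1 : Tendsto (fun n : ℕ => 2 / (Real.pi * α n)) atTop (𝓝 0) :=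
      (hα.const_mul_atTop Real.pi_pos).const_div_atTop 2
    apply squeeze_zero_norm' _ h1
    filter_upwards [eventually_ge_atTop 2, hα.eventually_ge_atTop 1] with n hn h2
    rw [Real.norm_eq_abs]
    exact dev hn h2
  constructor
  · intro h
    have := h.sub h0
    simpa using this
  · intro h
    have := h.add h0
    simpa using this

/-- the limit exists iff the oscillation of the energies vanishes at low temperature -/
theorem exists_iff : (∃ L : ℝ, Tendsto (fun n : ℕ => hermite n / n) atTop (𝓝 L)) ↔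
    ∀ ε > 0, ∃ α ≥ 1 / ε, ∃ L : ℝ, ∀ᶠ n : ℕ in atTop, |energy n α / (Real.pi * α) - L| ≤ ε := by
  constructor
  · rintro ⟨L, hL⟩ ε hε
    have hpi := Real.pi_gt_three
    set α : ℝ := 1 + 2 / ε with hα
    have hα1 : 1 ≤ α := by rw [hα]; linarith [div_pos two_pos hε]
    have h0 : 0 < 1 / ε := by positivity
    refine ⟨α, ?_, L, ?_⟩
    · rw [hα]
      have : 2 / ε = 2 * (1 / ε) := by ring
      linarith
    · have h1 := hL.eventually (Metric.ball_mem_nhds L (show 0 < ε / 4 by positivity))
      filter_upwards [eventually_ge_atTop 2, h1] with n hn h2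
      rw [Real.dist_eq] at h2
      have h3 := dev hn hα1
      have h4 : 2 / (Real.pi * α) ≤ ε / 2 := by
        rw [div_le_iff₀ (by positivity)]
        have h5 : ε / 2 * (Real.pi * α) = (Real.pi * (ε * α)) / 2 := by ring
        have h6 : 2 ≤ ε * α := by
          rw [hα, mul_add, mul_one, mul_div_cancel₀ _ hε.ne']
          linarith
        rw [h5]
        nlinarith
      rw [abs_le] at h3
      rw [abs_lt] at h2
      rw [abs_le]
      constructor <;> linarith [h3.1, h3.2, h2.1, h2.2]
  · intro h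
    apply cauchySeq_tendsto_of_complete
    rw [Metric.cauchySeq_iff']
    intro ε hε
    set δ : ℝ := min (ε / 8) 1 with hδ
    have hδ0 : 0 < δ := lt_min (by positivity) one_pos
    have hδ1 : δ ≤ ε / 8 := min_le_left _ _
    have hδ2 : δ ≤ 1 := min_le_right _ _
    obtain ⟨α, hα, L, hL⟩ := h δ hδ0
    have hα1 : 1 ≤ α := le_trans (by rw [le_div_iff₀ hδ0]; linarith) hα
    have hαδ : 1 ≤ α * δ := by
      rw [ge_iff_le, div_le_iff₀ hδ0] at hα
      exact hα
    have hpi := Real.pi_gt_three
    have h4 : 2 / (Real.pi * α) ≤ δ := by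
      rw [div_le_iff₀ (by positivity)]
      nlinarith
    obtain ⟨N, hN⟩ := Filter.eventually_atTop.1 (hL.and (eventually_ge_atTop 2))
    refine ⟨N, fun n hn => ?_⟩
    obtain ⟨a1, a2⟩ := hN n hn
    obtain ⟨b1, b2⟩ := hN N le_rfl
    have c1 := dev a2 hα1
    have c2 := dev b2 hα1
    rw [Real.dist_eq]
    rw [abs_le] at a1 b1 c1 c2
    rw [abs_lt]
    constructor <;> linarith [a1.1, a1.2, b1.1, b1.2, c1.1, c1.2, c2.1, c2.2]

theorem Psi_large {α : ℝ} (hα : Real.exp 1 ≤ α) :
    Psi (α / (2 * Real.exp 1)) = α / (2 * Real.exp 1) := by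
  have he := Real.exp_pos 1
  unfold Psi
  rw [if_pos]
  rw [le_div_iff₀ (by positivity)]
  linarith

theorem Psi_small {α : ℝ} (hα0 : 0 < α) (hα : α ≤ Real.exp 1) :
    Psi (α / (2 * Real.exp 1)) = Real.log α / 2 := by
  have he := Real.exp_pos 1
  rw [le_Psi (by positivity)]
  · congr 2
    field_simp
  · rw [div_le_iff₀ (by positivity)]
    linarith

/-- the believed value of the limit determines all the energies -/
theorem value_imp (h : Tendsto (fun n : ℕ => hermite n / n) atTop (𝓝 (1 / (2 * Real.pi * Real.exp 1))))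
    {α : ℝ} (hα : 0 < α) :
    Tendsto (fun n : ℕ => energy n α) atTop (𝓝 (Psi (α / (2 * Real.exp 1)))) := by
  have he := Real.exp_pos 1
  have hpi := Real.pi_pos
  have h1 : Tendsto (fun n : ℕ => Psi (Real.pi * α * (hermite n / n))) atTop
      (𝓝 (Psi (α / (2 * Real.exp 1)))) := by
    have h2 : Tendsto (fun n : ℕ => Real.pi * α * (hermite n / n)) atTop
        (𝓝 (α / (2 * Real.exp 1))) := by
      have e : α / (2 * Real.exp 1) = Real.pi * α * (1 / (2 * Real.pi * Real.exp 1)) := by
        field_simp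
      rw [e]
      exact h.const_mul _
    exact (continuousAt_Psi (by positivity)).tendsto.comp h2
  apply tendsto_of_tendsto_of_tendsto_of_le_of_le' tendsto_const_nhds h1
  · filter_upwards [eventually_ge_atTop 2] with n hn
    exact energy_ge_Psi hn hα
  · filter_upwards [eventually_ge_atTop 2] with n hn
    exact energy_le (by omega) hα

theorem value_of (h : ∀ α₀ : ℝ, ∃ α ≥ α₀, 0 < α ∧
    Tendsto (fun n : ℕ => energy n α) atTop (𝓝 (Psi (α / (2 * Real.exp 1))))) :
    Tendsto (fun n : ℕ => hermite n / n) atTop (𝓝 (1 / (2 * Real.pi * Real.exp 1))) := by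
  have he := Real.exp_pos 1
  have hpi := Real.pi_gt_three
  rw [Metric.tendsto_atTop]
  intro ε hε
  obtain ⟨α, hα, hα0, ht⟩ := h (max (Real.exp 1) (2 / ε))
  have hαe : Real.exp 1 ≤ α := (le_max_left _ _).trans hα
  have hαε : 2 / ε ≤ α := (le_max_right _ _).trans hα
  have hα1 : 1 ≤ α := by
    have := Real.exp_one_gt_d9
    linarith
  rw [Psi_large hαe] at ht
  have h2 := ht.div_const (Real.pi * α)
  have e : α / (2 * Real.exp 1) / (Real.pi * α) = 1 / (2 * Real.pi * Real.exp 1) := by
    field_simp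
  rw [e] at h2
  have h3 : 2 / (Real.pi * α) ≤ ε / 2 := by
    rw [div_le_iff₀ (by positivity)]
    rw [div_le_iff₀ hε] at hαε
    nlinarith
  obtain ⟨N, hN⟩ := Filter.eventually_atTop.1
    ((h2.eventually (Metric.ball_mem_nhds _ (show 0 < ε / 2 by positivity))).and
      (eventually_ge_atTop 2))
  refine ⟨N, fun n hn => ?_⟩
  obtain ⟨a1, a2⟩ := hN n hn
  have c := dev a2 hα1
  rw [Real.dist_eq] at a1
  rw [Real.dist_eq]
  rw [abs_lt] at a1 ⊢
  rw [abs_le] at c
  constructor <;> linarith [a1.1, a1.2, c.1, c.2]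

end Pool.Agent.K4H31.GE
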