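import Pool.Agent.K4H31.GE.Avg

/-! Minimal Gaussian energy of lattices and Hermite's constant (for MP_ef2672_gt). -/

open Matrix Filter Finset
open scoped ENNReal Topology

namespace Pool.Agent.K4H31.GE

open Pool.Agent.H160R3.Herm Pool.Agent.TH220.HG

/-- the least Gaussian energy of a lattice in dimension `n` -/
noncomputable def minTheta (n : ℕ) (α : ℝ) : ℝ :=
  ⨅ A : {A : Matrix (Fin n) (Fin n) ℝ // A.det ≠ 0}, theta A.1 α

/-- its exponential rate -/
noncomputable def energy (n : ℕ) (α : ℝ) : ℝ := -Real.log (minTheta n α) / n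

/-- the profile -/
noncomputable def Psi (x : ℝ) : ℝ := if 1 / 2 ≤ x then x else Real.log (2 * Real.exp 1 * x) / 2

theorem minTheta_le {n : ℕ} {A : Matrix (Fin n) (Fin n) ℝ} (hA : A.det ≠ 0) (α : ℝ) :
    minTheta n α ≤ theta A α :=
  ciInf_le (f := fun A : {A : Matrix (Fin n) (Fin n) ℝ // A.det ≠ 0} => theta A.1 α)
    ⟨0, by rintro _ ⟨A, rfl⟩; exact theta_nonneg _ _⟩ ⟨A, hA⟩

theorem le_minTheta {n : ℕ} {α c : ℝ}
    (h : ∀ A : Matrix (Fin n) (Fin n) ℝ, A.det ≠ 0 → c ≤ theta A α) : c ≤ minTheta n α := by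
  have : Nonempty {A : Matrix (Fin n) (Fin n) ℝ // A.det ≠ 0} := ⟨⟨1, by simp⟩⟩
  exact le_ciInf fun A => h A.1 A.2

theorem gam_le_hermite {n : ℕ} (hn : 0 < n) {A : Matrix (Fin n) (Fin n) ℝ} (hA : A.det ≠ 0) :
    gam A ≤ hermite n := le_hermite hn A hA

theorem count_theta {n : ℕ} (hn : 0 < n) {A : Matrix (Fin n) (Fin n) ℝ} (hA : A.det ≠ 0)
    {α : ℝ} (hα : 0 < α) (t : ℝ) :
    ((short A t).ncard : ℝ) * Real.exp (-(Real.pi * α * (t * gam A))) ≤ theta A α := by
  classical
  have hfin := short_finite hA t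
  set S := hfin.toFinset with hS
  have hmem : ∀ x, x ∈ S ↔ x ≠ 0 ∧ nsq A x < t * minSq A := by
    intro x
    rw [hS, Set.Finite.mem_toFinset]
    rfl
  have hcard : (S.subtype (fun w : Fin n → ℤ => w ≠ 0)).card = S.card := by
    rw [Finset.card_subtype, Finset.filter_true_of_mem]
    intro x hx
    exact ((hmem x).1 hx).1
  rw [Set.ncard_eq_toFinset_card _ hfin, ← hS, ← hcard, ← nsmul_eq_mul, ← Finset.sum_const]
  refine le_trans (Finset.sum_le_sum fun w hw => ?_)
    ((summable_theta hn hA hα).sum_le_tsum (S.subtype (fun w : Fin n → ℤ => w ≠ 0))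
      (fun _ _ => (Real.exp_pos _).le))
  apply Real.exp_le_exp.2
  rw [Finset.mem_subtype] at hw
  have h1 := (nsq_lt_iff hA w.1 t).1 ((hmem _).1 hw).2
  have hpa : 0 < Real.pi * α := by positivity
  nlinarith [mul_lt_mul_of_pos_left h1 hpa]

theorem theta_lower {n : ℕ} (hn : 0 < n) {A : Matrix (Fin n) (Fin n) ℝ} (hA : A.det ≠ 0)
    {α : ℝ} (hα : 0 < α) :
    Real.exp (-(n * Psi (Real.pi * α * (hermite n / n)))) ≤ theta A α := by
  have hn' : (0 : ℝ) < n := by exact_mod_cast hn
  have hg := gam_pos hn hA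
  have hgh := gam_le_hermite hn hA
  have hh : 0 < hermite n := hg.trans_le hgh
  have hpa : 0 < Real.pi * α := by positivity
  set x := Real.pi * α * (hermite n / n) with hx
  have hnx : n * x = Real.pi * α * hermite n := by rw [hx]; field_simp
  have hx0 : 0 < x := by rw [hx]; positivity
  unfold Psi
  split_ifs with hc
  · refine le_trans (Real.exp_le_exp.2 ?_) (exp_le_theta hn hA hα)
    rw [hnx]
    have := mul_le_mul_of_nonneg_left hgh hpa.le
    linarith
  · push Not at hc
    set t : ℝ := n / (2 * Real.pi * α * gam A) with ht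
    have h2 : Real.pi * α * gam A < n / 2 := by
      have h3 := mul_le_mul_of_nonneg_left hgh hpa.le
      have : n * x < n * (1 / 2) := mul_lt_mul_of_pos_left hc hn'
      linarith
    have ht1 : 1 < t := by
      rw [ht, one_lt_div (by positivity)]
      linarith
    have h3 := sub_ineq hn hA ht1
    have htg : t * gam A = n / (2 * Real.pi * α) := by rw [ht]; field_simp
    have htg0 : 0 < t * gam A := by rw [htg]; positivity
    have h4 := count_theta hn hA hα t
    set N : ℝ := ((short A t).ncard : ℝ) with hN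
    have hN0 : 0 < N := by
      rcases Nat.eq_zero_or_pos (short A t).ncard with h0 | h0
      · rw [hN, h0, Nat.cast_zero, Real.zero_rpow (by positivity), zero_mul] at h3
        linarith
      · rw [hN]; exact_mod_cast h0
    have h5 : Real.log (t * gam A) ≤ 2 / n * Real.log N + Real.log (hermite n) := by
      have := Real.log_le_log htg0 h3
      rwa [Real.log_mul (Real.rpow_pos_of_pos hN0 _).ne' hh.ne', Real.log_rpow hN0] at this
    have h6 : Real.log (2 * Real.exp 1 * x) = 1 + Real.log (hermite n) - Real.log (t * gam A) := by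
      have e1 : 2 * Real.exp 1 * x = Real.exp 1 * (hermite n / (t * gam A)) := by
        rw [htg, hx]
        field_simp
      rw [e1, Real.log_mul (Real.exp_pos 1).ne' (by positivity), Real.log_exp,
        Real.log_div hh.ne' htg0.ne']
      ring
    have h7 : Real.pi * α * (t * gam A) = n / 2 := by
      rw [htg]
      field_simp
    refine le_trans ?_ h4
    rw [h7]
    calc Real.exp (-(n * (Real.log (2 * Real.exp 1 * x) / 2)))
        ≤ Real.exp (Real.log N + -(n / 2)) := by
          apply Real.exp_le_exp.2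
          rw [h6]
          have h8 : n / 2 * (2 / n * Real.log N) = Real.log N := by field_simp
          have h9 := mul_le_mul_of_nonneg_left h5 (show (0 : ℝ) ≤ n / 2 by positivity)
          rw [mul_add, h8] at h9
          nlinarith
      _ = N * Real.exp (-(n / 2)) := by rw [Real.exp_add, Real.exp_log hN0]

theorem minTheta_lower {n : ℕ} (hn : 0 < n) {α : ℝ} (hα : 0 < α) :
    Real.exp (-(n * Psi (Real.pi * α * (hermite n / n)))) ≤ minTheta n α :=
  le_minTheta fun _ hA => theta_lower hn hA hα

theorem minTheta_pos {n : ℕ} (hn : 0 < n) {α : ℝ} (hα : 0 < α) : 0 < minTheta n α :=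
  (Real.exp_pos _).trans_le (minTheta_lower hn hα)

theorem energy_le {n : ℕ} (hn : 0 < n) {α : ℝ} (hα : 0 < α) :
    energy n α ≤ Psi (Real.pi * α * (hermite n / n)) := by
  have hn' : (0 : ℝ) < n := by exact_mod_cast hn
  have h := Real.log_le_log (Real.exp_pos _) (minTheta_lower hn hα)
  rw [Real.log_exp] at h
  rw [energy, div_le_iff₀ hn']
  linarith

theorem le_energy {n : ℕ} (hn : 0 < n) {α c : ℝ} (hα : 0 < α)
    (h : minTheta n α ≤ Real.exp (-(n * c))) : c ≤ energy n α := by
  have hn' : (0 : ℝ) < n := by exact_mod_cast hn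
  have h1 := Real.log_le_log (minTheta_pos hn hα) h
  rw [Real.log_exp] at h1
  rw [energy, le_div_iff₀ hn']
  linarith

theorem energy_ge_log {n : ℕ} (hn : 2 ≤ n) {α : ℝ} (hα : 0 < α) :
    Real.log α / 2 ≤ energy n α := by
  apply le_energy (by omega) hα
  have h1 : minTheta n α ≤ (1 / √α) ^ n := by
    apply le_of_forall_pos_le_add
    intro ε hε
    obtain ⟨A, hA, h⟩ := exists_lattice hn hα hε
    exact (minTheta_le hA α).trans h
  refine h1.trans (le_of_eq ?_)
  have h2 : 0 < √α := Real.sqrt_pos.2 hα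
  rw [show -((n : ℝ) * (Real.log α / 2)) = n * Real.log (1 / √α) by
    rw [one_div, Real.log_inv, Real.log_sqrt hα.le]; ring, Real.exp_nat_mul,
    Real.exp_log (by positivity)]

/-- the energy rate divided by `α` is nondecreasing in `α` -/
theorem energy_mono {n : ℕ} (hn : 0 < n) {α β : ℝ} (hβ : 0 < β) (hαβ : β ≤ α) :
    energy n β / β ≤ energy n α / α := by
  have hn' : (0 : ℝ) < n := by exact_mod_cast hn
  have hα : 0 < α := by linarith
  have h1 : Real.exp (β / α * Real.log (minTheta n α)) ≤ minTheta n β := by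
    apply le_minTheta
    intro A hA
    have h2 := (minTheta_le hA α).trans (theta_power hn hA hβ hαβ)
    have hpos := theta_pos hn hA hβ
    have h3 := Real.log_le_log (minTheta_pos hn hα) h2
    rw [Real.log_rpow hpos] at h3
    rw [← Real.exp_log hpos]
    apply Real.exp_le_exp.2
    have h4 : β / α * (α / β * Real.log (theta A β)) = Real.log (theta A β) := by field_simp
    rw [← h4]
    exact mul_le_mul_of_nonneg_left h3 (by positivity)
  have h2 := Real.log_le_log (Real.exp_pos _) h1
  rw [Real.log_exp] at h2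
  rw [energy, energy, div_div, div_div, div_le_div_iff₀ (by positivity) (by positivity)]
  have h3 : Real.log (minTheta n α) * β ≤ Real.log (minTheta n β) * α := by
    have h4 := mul_le_mul_of_nonneg_right h2 hα.le
    have h5 : β / α * Real.log (minTheta n α) * α = Real.log (minTheta n α) * β := by field_simp
    rw [h5] at h4
    exact h4
  nlinarith

theorem energy_ge_Psi {n : ℕ} (hn : 2 ≤ n) {α : ℝ} (hα : 0 < α) :
    Psi (α / (2 * Real.exp 1)) ≤ energy n α := by
  have he := Real.exp_pos 1
  unfold Psi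
  split_ifs with h
  · rw [le_div_iff₀ (by positivity)] at h
    have h1 : Real.exp 1 ≤ α := by linarith
    have h2 := energy_mono (n := n) (by omega) he h1
    have h3 := energy_ge_log hn he
    rw [Real.log_exp] at h3
    have h4 : 1 / 2 / Real.exp 1 ≤ energy n α / α :=
      (div_le_div_of_nonneg_right h3 he.le).trans h2
    rw [le_div_iff₀ hα] at h4
    refine le_trans (le_of_eq ?_) h4
    field_simp
  · have e : 2 * Real.exp 1 * (α / (2 * Real.exp 1)) = α := by field_simp
    rw [e]
    exact energy_ge_log hn hα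

theorem energy_ge_gam {n : ℕ} (hn : 2 ≤ n) {α : ℝ} (hα : 1 ≤ α) {A : Matrix (Fin n) (Fin n) ℝ}
    (hA : A.det ≠ 0) : Real.pi * α * gam A / n - 2 ≤ energy n α := by
  have hn0 : 0 < n := by omega
  have hn' : (0 : ℝ) < n := by exact_mod_cast hn0
  have hg := gam_pos hn0 hA
  rcases le_or_gt (2 * n / (Real.pi * gam A)) α with h | h
  · exact le_energy hn0 (by linarith) ((minTheta_le hA α).trans (theta_le_exp hn0 hA h))
  · have h1 : Real.pi * α * gam A / n ≤ 2 := by
      rw [div_le_iff₀ hn']
      rw [lt_div_iff₀ (by positivity)] at h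
      nlinarith
    have h2 := energy_ge_log hn (show 0 < α by linarith)
    have h3 := Real.log_nonneg hα
    linarith

theorem energy_ge_hermite {n : ℕ} (hn : 2 ≤ n) {α : ℝ} (hα : 1 ≤ α) :
    Real.pi * α * (hermite n / n) - 2 ≤ energy n α := by
  have hn0 : 0 < n := by omega
  have hn' : (0 : ℝ) < n := by exact_mod_cast hn0
  have hpa : 0 < Real.pi * α := by positivity
  have h1 : hermite n ≤ n * (energy n α + 2) / (Real.pi * α) := by
    have : Nonempty {A : Matrix (Fin n) (Fin n) ℝ // A.det ≠ 0} := ⟨⟨1, by simp⟩⟩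
    unfold hermite
    apply ciSup_le
    intro A
    have h2 := energy_ge_gam hn hα A.2
    rw [le_div_iff₀ hpa]
    change gam A.1 * (Real.pi * α) ≤ _
    have h3 : Real.pi * α * gam A.1 / n ≤ energy n α + 2 := by linarith
    rw [div_le_iff₀ hn'] at h3
    linarith
  rw [le_div_iff₀ hpa] at h1
  have h2 : Real.pi * α * (hermite n / n) ≤ energy n α + 2 := by
    rw [mul_div_assoc', div_le_iff₀ hn']
    linarith
  linarith

theorem Psi_le {x : ℝ} (hx : 0 < x) : Psi x ≤ x := by
  unfold Psi
  split_ifs with h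
  · exact le_rfl
  · rw [mul_assoc, mul_comm, mul_assoc, Real.log_mul (Real.exp_pos 1).ne' (by positivity),
      Real.log_exp]
    have := Real.log_le_sub_one_of_pos (show 0 < x * 2 by linarith)
    linarith

theorem le_Psi {x : ℝ} (_hx : 0 < x) (h : x ≤ 1 / 2) : Psi x = Real.log (2 * Real.exp 1 * x) / 2 := by
  unfold Psi
  split_ifs with h1
  · have h2 : x = 1 / 2 := le_antisymm h h1
    rw [h2]
    have : 2 * Real.exp 1 * (1 / 2) = Real.exp 1 := by ring
    rw [this, Real.log_exp]
  · rfl

theorem continuousAt_Psi {x : ℝ} (hx : 0 < x) : ContinuousAt Psi x := by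
  have h1 : ∀ᶠ y in 𝓝 x, Psi y = if 1 / 2 ≤ y then y else Real.log (2 * Real.exp 1 * y) / 2 :=
    Eventually.of_forall fun y => rfl
  have he := Real.exp_pos 1
  rcases lt_trichotomy x (1 / 2) with h | h | h
  · have h2 : Psi =ᶠ[𝓝 x] fun y => Real.log (2 * Real.exp 1 * y) / 2 := by
      filter_upwards [gt_mem_nhds h] with y hy
      unfold Psi
      rw [if_neg (by linarith)]
    refine ContinuousAt.congr ?_ h2.symm
    apply ContinuousAt.div_const
    apply ContinuousAt.log (by fun_prop) (by positivity)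
  · -- at the junction
    have h3 : ContinuousAt (fun y : ℝ => Real.log (2 * Real.exp 1 * y) / 2) x := by
      apply ContinuousAt.div_const
      apply ContinuousAt.log (by fun_prop) (by positivity)
    have e1 : Psi x = x := by unfold Psi; rw [if_pos h.ge]
    have e2 : Real.log (2 * Real.exp 1 * x) / 2 = x := by
      rw [← le_Psi hx h.le, e1]
    rw [Metric.continuousAt_iff] at h3 ⊢
    intro ε hε
    obtain ⟨δ, hδ, h4⟩ := h3 ε hε
    refine ⟨min δ ε, lt_min hδ hε, fun y hy => ?_⟩
    by_cases hc : 1 / 2 ≤ y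
    · rw [e1]
      unfold Psi
      rw [if_pos hc]
      exact hy.trans_le (min_le_right _ _)
    · have h5 := h4 (hy.trans_le (min_le_left _ _))
      rw [e1]
      simp only [e2] at h5
      unfold Psi
      rw [if_neg hc]
      exact h5
  · have h2 : Psi =ᶠ[𝓝 x] fun y => y := by
      filter_upwards [lt_mem_nhds h] with y hy
      unfold Psi
      rw [if_pos hy.le]
    exact continuousAt_id.congr h2.symm

end Pool.Agent.K4H31.GE
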