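import Mathlib

/-! One dimensional Gaussian sums (for MP_ef2672_gt). -/

open MeasureTheory Set Finset
open scoped ENNReal

namespace Pool.Agent.K4H31.GE

/-- `∑_{j ≥ 1} e^{-s j²} ≤ √(π/s) / 2` -/
theorem sum_gauss_nat {s : ℝ} (hs : 0 < s) (N : ℕ) :
    ∑ i ∈ Finset.range N, Real.exp (-s * ((i : ℝ) + 1) ^ 2) ≤ √(Real.pi / s) / 2 := by
  have hanti : AntitoneOn (fun x : ℝ => Real.exp (-s * x ^ 2)) (Icc 0 (0 + (N : ℝ))) := by
    intro x hx y _ hxy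
    apply Real.exp_le_exp.2
    have h0 : 0 ≤ x := hx.1
    have : x ^ 2 ≤ y ^ 2 := pow_le_pow_left₀ h0 hxy 2
    nlinarith
  have h1 := hanti.sum_le_integral
  have h2 : ∫ x in (0 : ℝ)..(0 + (N : ℝ)), Real.exp (-s * x ^ 2) ≤
      ∫ x in Ioi (0 : ℝ), Real.exp (-s * x ^ 2) := by
    rw [intervalIntegral.integral_of_le (by positivity)]
    apply setIntegral_mono_set
    · exact (integrable_exp_neg_mul_sq hs).integrableOn
    · exact Filter.Eventually.of_forall fun x => (Real.exp_pos _).le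
    · exact (Set.Ioc_subset_Ioi_self).eventuallyLE
  rw [integral_gaussian_Ioi] at h2
  refine le_trans (le_of_eq ?_) (h1.trans h2)
  refine Finset.sum_congr rfl fun i _ => ?_
  push_cast
  ring_nf

theorem tsum_gauss_nat {s : ℝ} (hs : 0 < s) :
    ∑' i : ℕ, ENNReal.ofReal (Real.exp (-s * ((i : ℝ) + 1) ^ 2)) ≤
      ENNReal.ofReal (√(Real.pi / s) / 2) := by
  apply ENNReal.tsum_le_of_sum_range_le
  intro N
  rw [← ENNReal.ofReal_sum_of_nonneg fun i _ => (Real.exp_pos _).le]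
  exact ENNReal.ofReal_le_ofReal (sum_gauss_nat hs N)

/-- `∑_{j ∈ ℤ} e^{-s j²} ≤ 1 + √(π/s)` -/
theorem tsum_gauss_int {s : ℝ} (hs : 0 < s) :
    ∑' j : ℤ, ENNReal.ofReal (Real.exp (-s * (j : ℝ) ^ 2)) ≤
      ENNReal.ofReal (1 + √(Real.pi / s)) := by
  have h1 : HasSum (fun n : ℕ => ENNReal.ofReal (Real.exp (-s * (((n : ℤ) : ℤ) : ℝ) ^ 2)))
      (∑' n : ℕ, ENNReal.ofReal (Real.exp (-s * (((n : ℤ) : ℤ) : ℝ) ^ 2))) :=
    ENNReal.summable.hasSum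
  have h2 : HasSum (fun n : ℕ => ENNReal.ofReal (Real.exp (-s * ((-((n : ℤ) + 1) : ℤ) : ℝ) ^ 2)))
      (∑' n : ℕ, ENNReal.ofReal (Real.exp (-s * ((-((n : ℤ) + 1) : ℤ) : ℝ) ^ 2))) :=
    ENNReal.summable.hasSum
  have h3 := (HasSum.of_nat_of_neg_add_one (f := fun j : ℤ => ENNReal.ofReal (Real.exp (-s * (j : ℝ) ^ 2)))
    h1 h2).tsum_eq
  rw [h3, tsum_eq_zero_add' ENNReal.summable]
  have e1 : ∀ n : ℕ, ENNReal.ofReal (Real.exp (-s * ((((n + 1 : ℕ) : ℤ) : ℤ) : ℝ) ^ 2)) =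
      ENNReal.ofReal (Real.exp (-s * ((n : ℝ) + 1) ^ 2)) := by
    intro n
    congr 2
    push_cast
    ring
  have e2 : ∀ n : ℕ, ENNReal.ofReal (Real.exp (-s * ((-((n : ℤ) + 1) : ℤ) : ℝ) ^ 2)) =
      ENNReal.ofReal (Real.exp (-s * ((n : ℝ) + 1) ^ 2)) := by
    intro n
    congr 2
    push_cast
    ring
  simp_rw [e1, e2]
  have h4 := tsum_gauss_nat hs
  have e3 : ENNReal.ofReal (Real.exp (-s * ((((0 : ℕ) : ℤ) : ℤ) : ℝ) ^ 2)) = ENNReal.ofReal 1 := by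
    simp
  rw [e3]
  calc ENNReal.ofReal 1 + _ + _ ≤ ENNReal.ofReal 1 + ENNReal.ofReal (√(Real.pi / s) / 2) +
        ENNReal.ofReal (√(Real.pi / s) / 2) := by gcongr
    _ = _ := by
        rw [← ENNReal.ofReal_add (by norm_num) (by positivity),
          ← ENNReal.ofReal_add (by positivity) (by positivity)]
        congr 1
        ring

theorem tsum_pi_prod {β : Type*} (g : β → ℝ≥0∞) (m : ℕ) :
    ∑' v : Fin m → β, ∏ i, g (v i) = (∑' b, g b) ^ m := by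
  induction m with
  | zero => simp
  | succ m ih =>
    have hfun : ∀ c : β × (Fin m → β),
        ∏ i, g ((Fin.consEquiv (fun _ : Fin (m + 1) => β)) c i) = g c.1 * ∏ i, g (c.2 i) := by
      rintro ⟨a, v⟩
      rw [Fin.prod_univ_succ]
      simp [Fin.consEquiv]
    rw [← (Fin.consEquiv (fun _ : Fin (m + 1) => β)).tsum_eq, tsum_congr hfun,
      ENNReal.tsum_prod (f := fun (a : β) (v : Fin m → β) => g a * ∏ i, g (v i)), pow_succ']
    simp_rw [ENNReal.tsum_mul_left, ih, ENNReal.tsum_mul_right]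

/-- `∑_{x ∈ ℤⁿ} e^{-s |x|²} ≤ (1 + √(π/s))ⁿ` -/
theorem tsum_gauss_pi {s : ℝ} (hs : 0 < s) (n : ℕ) :
    ∑' x : Fin n → ℤ, ENNReal.ofReal (Real.exp (-s * ∑ i, (x i : ℝ) ^ 2)) ≤
      ENNReal.ofReal ((1 + √(Real.pi / s)) ^ n) := by
  have h := tsum_pi_prod (fun j : ℤ => ENNReal.ofReal (Real.exp (-s * (j : ℝ) ^ 2))) n
  have e : ∀ x : Fin n → ℤ, ENNReal.ofReal (Real.exp (-s * ∑ i, (x i : ℝ) ^ 2)) =
      ∏ i, ENNReal.ofReal (Real.exp (-s * (x i : ℝ) ^ 2)) := by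
    intro x
    rw [← ENNReal.ofReal_prod_of_nonneg fun i _ => (Real.exp_pos _).le, ← Real.exp_sum,
      Finset.mul_sum]
  simp_rw [e]
  rw [h, ENNReal.ofReal_pow (by positivity)]
  exact pow_le_pow_left' (tsum_gauss_int hs) n

end Pool.Agent.K4H31.GE
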