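import Pool.Agent.K4H31.GE.Count
import Pool.Agent.K4H31.GE.OneDim

/-! Gaussian energies of lattices (for MP_ef2672_gt). -/

open Matrix Filter
open scoped ENNReal Topology

namespace Pool.Agent.K4H31.GE

open Pool.Agent.H160R3.Herm Pool.Agent.TH220.HG

/-- squared length of `A w`, normalised by the covolume -/
noncomputable def nn {n : ℕ} (A : Matrix (Fin n) (Fin n) ℝ) (w : Fin n → ℤ) : ℝ :=
  nsq A w / |A.det| ^ ((2 : ℝ) / n)

/-- Gaussian energy -/
noncomputable def theta {n : ℕ} (A : Matrix (Fin n) (Fin n) ℝ) (α : ℝ) : ℝ :=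
  ∑' w : {w : Fin n → ℤ // w ≠ 0}, Real.exp (-(Real.pi * α * nn A w.1))

/-- the same with values in `[0, ∞]` -/
noncomputable def thE {n : ℕ} (A : Matrix (Fin n) (Fin n) ℝ) (α : ℝ) : ℝ≥0∞ :=
  ∑' w : {w : Fin n → ℤ // w ≠ 0}, ENNReal.ofReal (Real.exp (-(Real.pi * α * nn A w.1)))

variable {n : ℕ} {A : Matrix (Fin n) (Fin n) ℝ}

theorem det_pow_pos (hA : A.det ≠ 0) : 0 < |A.det| ^ ((2 : ℝ) / n) :=
  Real.rpow_pos_of_pos (abs_pos.2 hA) _

theorem gam_pos (hn : 0 < n) (hA : A.det ≠ 0) : 0 < gam A :=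
  div_pos (minSq_pos hn hA) (det_pow_pos hA)

theorem gam_le_nn (hA : A.det ≠ 0) {w : Fin n → ℤ} (hw : w ≠ 0) : gam A ≤ nn A w :=
  div_le_div_of_nonneg_right (minSq_le A w hw) (det_pow_pos hA).le

theorem nsq_lt_iff (hA : A.det ≠ 0) (w : Fin n → ℤ) (t : ℝ) :
    nsq A w < t * minSq A ↔ nn A w < t * gam A := by
  rw [nn, gam, mul_div_assoc', div_lt_div_iff_of_pos_right (det_pow_pos hA)]

theorem layer (hn : 0 < n) (hA : A.det ≠ 0) {α : ℝ} (hα : 0 < α) :
    thE A α ≤ ∑' k : ℕ, ENNReal.ofReal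
      ((1 + 2 * √((k : ℝ) + 2)) ^ n * Real.exp (-(Real.pi * α * gam A * ((k : ℝ) + 1)))) := by
  classical
  have hg := gam_pos hn hA
  set c : ℕ → ℝ≥0∞ := fun k =>
    ENNReal.ofReal (Real.exp (-(Real.pi * α * gam A * ((k : ℝ) + 1)))) with hc
  have h1 : ∀ w : {w : Fin n → ℤ // w ≠ 0},
      ENNReal.ofReal (Real.exp (-(Real.pi * α * nn A w.1))) ≤
        ∑' k : ℕ, if nsq A w.1 < ((k : ℝ) + 2) * minSq A then c k else 0 := by
    intro w
    have h2 := gam_le_nn hA w.2
    have h3 : 1 ≤ nn A w.1 / gam A := (one_le_div hg).2 h2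
    obtain ⟨k, hk⟩ : ∃ k : ℕ, ⌊nn A w.1 / gam A⌋₊ = k + 1 := by
      have : 1 ≤ ⌊nn A w.1 / gam A⌋₊ := Nat.le_floor (by exact_mod_cast h3)
      exact ⟨⌊nn A w.1 / gam A⌋₊ - 1, by omega⟩
    have h4 : ((k : ℝ) + 1) ≤ nn A w.1 / gam A := by
      have := Nat.floor_le (a := nn A w.1 / gam A) (by linarith)
      rw [hk] at this
      push_cast at this
      exact this
    have h5 : nn A w.1 / gam A < (k : ℝ) + 2 := by
      have := Nat.lt_floor_add_one (nn A w.1 / gam A)
      rw [hk] at this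
      push_cast at this
      linarith
    refine le_trans ?_ (ENNReal.le_tsum k)
    rw [if_pos]
    · apply ENNReal.ofReal_le_ofReal
      apply Real.exp_le_exp.2
      rw [le_div_iff₀ hg] at h4
      have hpa : 0 < Real.pi * α := by positivity
      nlinarith [mul_le_mul_of_nonneg_left h4 hpa.le]
    · rw [nsq_lt_iff hA]
      rwa [div_lt_iff₀ hg] at h5
  calc thE A α ≤ ∑' w : {w : Fin n → ℤ // w ≠ 0}, ∑' k : ℕ,
        if nsq A w.1 < ((k : ℝ) + 2) * minSq A then c k else 0 := ENNReal.tsum_le_tsum h1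
    _ = ∑' k : ℕ, ∑' w : {w : Fin n → ℤ // w ≠ 0},
        if nsq A w.1 < ((k : ℝ) + 2) * minSq A then c k else 0 := ENNReal.tsum_comm
    _ ≤ ∑' k : ℕ, ∑' w : Fin n → ℤ, if nsq A w < ((k : ℝ) + 2) * minSq A then c k else 0 := by
        apply ENNReal.tsum_le_tsum
        intro k
        exact ENNReal.tsum_comp_le_tsum_of_injective Subtype.val_injective
          (fun w : Fin n → ℤ => if nsq A w < ((k : ℝ) + 2) * minSq A then c k else 0)
    _ ≤ _ := by
        apply ENNReal.tsum_le_tsum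
        intro k
        have hfin := finite_lt hA (((k : ℝ) + 2) * minSq A)
        set F := hfin.toFinset with hF
        have hmem : ∀ w, w ∈ F ↔ nsq A w < ((k : ℝ) + 2) * minSq A := by
          intro w
          rw [hF, Set.Finite.mem_toFinset]
          rfl
        rw [tsum_eq_sum (s := F) (fun w hw => if_neg (fun h => hw ((hmem w).2 h)))]
        rw [Finset.sum_congr rfl (fun w hw => if_pos ((hmem w).1 hw)), Finset.sum_const,
          nsmul_eq_mul, hc, ← ENNReal.ofReal_natCast, ← ENNReal.ofReal_mul (by positivity)]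
        apply ENNReal.ofReal_le_ofReal
        apply mul_le_mul_of_nonneg_right _ (Real.exp_pos _).le
        have h6 := count_le hn hA (R := √((k : ℝ) + 2)) (Real.sqrt_nonneg _)
        rw [Real.sq_sqrt (by positivity), Set.ncard_eq_toFinset_card _ hfin] at h6
        exact h6

theorem summable_layer (n : ℕ) {c : ℝ} (hc : 0 < c) :
    Summable fun k : ℕ => (1 + 2 * √((k : ℝ) + 2)) ^ n * Real.exp (-(c * ((k : ℝ) + 1))) := by
  have h1 := Real.summable_pow_mul_exp_neg_nat_mul n hc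
  have h2 := ((summable_nat_add_iff 1).2 h1).mul_left (5 ^ n)
  refine Summable.of_nonneg_of_le (fun k => by positivity) (fun k => ?_) h2
  have h3 : (1 + 2 * √((k : ℝ) + 2)) ≤ 5 * ((k : ℝ) + 1) := by
    have h4 : √((k : ℝ) + 2) ≤ (k : ℝ) + 2 := by
      rw [Real.sqrt_le_left (by positivity)]
      nlinarith [(Nat.cast_nonneg k : (0 : ℝ) ≤ k)]
    have : (0 : ℝ) ≤ k := Nat.cast_nonneg k
    linarith
  have h5 : (1 + 2 * √((k : ℝ) + 2)) ^ n ≤ (5 * ((k : ℝ) + 1)) ^ n :=
    pow_le_pow_left₀ (by positivity) h3 n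
  calc _ ≤ (5 * ((k : ℝ) + 1)) ^ n * Real.exp (-(c * ((k : ℝ) + 1))) :=
        mul_le_mul_of_nonneg_right h5 (Real.exp_pos _).le
    _ = _ := by
        rw [mul_pow]
        push_cast
        ring_nf

theorem thE_ne_top (hn : 0 < n) (hA : A.det ≠ 0) {α : ℝ} (hα : 0 < α) : thE A α ≠ ⊤ := by
  have hg := gam_pos hn hA
  have hc : 0 < Real.pi * α * gam A := by positivity
  refine ne_top_of_le_ne_top ?_ (layer hn hA hα)
  rw [← ENNReal.ofReal_tsum_of_nonneg (fun k => by positivity) (summable_layer n hc)]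
  exact ENNReal.ofReal_ne_top

theorem summable_theta (hn : 0 < n) (hA : A.det ≠ 0) {α : ℝ} (hα : 0 < α) :
    Summable fun w : {w : Fin n → ℤ // w ≠ 0} => Real.exp (-(Real.pi * α * nn A w.1)) := by
  have h := ENNReal.summable_toReal (thE_ne_top hn hA hα)
  simpa [ENNReal.toReal_ofReal, (Real.exp_pos _).le] using h

theorem ofReal_theta (hn : 0 < n) (hA : A.det ≠ 0) {α : ℝ} (hα : 0 < α) :
    ENNReal.ofReal (theta A α) = thE A α :=
  ENNReal.ofReal_tsum_of_nonneg (fun _ => (Real.exp_pos _).le) (summable_theta hn hA hα)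

theorem theta_le (hn : 0 < n) (hA : A.det ≠ 0) {α c : ℝ} (hα : 0 < α) (hc : 0 ≤ c)
    (h : thE A α ≤ ENNReal.ofReal c) : theta A α ≤ c := by
  rw [← ofReal_theta hn hA hα, ENNReal.ofReal_le_ofReal_iff hc] at h
  exact h

theorem theta_nonneg (A : Matrix (Fin n) (Fin n) ℝ) (α : ℝ) : 0 ≤ theta A α :=
  tsum_nonneg fun _ => (Real.exp_pos _).le

theorem term_le_theta (hn : 0 < n) (hA : A.det ≠ 0) {α : ℝ} (hα : 0 < α)
    (w : {w : Fin n → ℤ // w ≠ 0}) : Real.exp (-(Real.pi * α * nn A w.1)) ≤ theta A α :=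
  (summable_theta hn hA hα).le_tsum w fun _ _ => (Real.exp_pos _).le

theorem exp_le_theta (hn : 0 < n) (hA : A.det ≠ 0) {α : ℝ} (hα : 0 < α) :
    Real.exp (-(Real.pi * α * gam A)) ≤ theta A α := by
  obtain ⟨w, hw, h⟩ := exists_min hn hA
  have h1 := term_le_theta hn hA hα ⟨w, hw⟩
  have e : nn A w = gam A := by rw [nn, gam, h]
  simp only [e] at h1
  exact h1

theorem theta_pos (hn : 0 < n) (hA : A.det ≠ 0) {α : ℝ} (hα : 0 < α) : 0 < theta A α :=
  (Real.exp_pos _).trans_le (exp_le_theta hn hA hα)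

/-- decay in `α` -/
theorem theta_decay (hn : 0 < n) (hA : A.det ≠ 0) {α β : ℝ} (hβ : 0 < β) (hαβ : β ≤ α) :
    theta A α ≤ Real.exp (-(Real.pi * (α - β) * gam A)) * theta A β := by
  unfold theta
  rw [← tsum_mul_left]
  apply (summable_theta hn hA (by linarith)).tsum_le_tsum _ ((summable_theta hn hA hβ).mul_left _)
  intro w
  rw [← Real.exp_add]
  apply Real.exp_le_exp.2
  have h := gam_le_nn hA w.2
  have h2 : 0 ≤ Real.pi * (α - β) := mul_nonneg Real.pi_pos.le (by linarith)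
  nlinarith [mul_le_mul_of_nonneg_left h h2]

/-- monotonicity of `ℓ^p` norms -/
theorem theta_power (hn : 0 < n) (hA : A.det ≠ 0) {α β : ℝ} (hβ : 0 < β) (hαβ : β ≤ α) :
    theta A α ≤ theta A β ^ (α / β) := by
  have hpos := theta_pos hn hA hβ
  have e : theta A β ^ (α / β) = theta A β ^ (α / β - 1) * theta A β := by
    rw [← Real.rpow_add_one hpos.ne']
    congr 1
    ring
  rw [e]
  conv_rhs => rw [theta, ← tsum_mul_left]
  apply (summable_theta hn hA (by linarith)).tsum_le_tsum _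
    ((summable_theta hn hA hβ).mul_left _)
  intro w
  have h1 := term_le_theta hn hA hβ w
  have h2 : Real.exp (-(Real.pi * α * nn A w.1)) =
      Real.exp (-(Real.pi * β * nn A w.1)) ^ (α / β - 1) * Real.exp (-(Real.pi * β * nn A w.1)) := by
    rw [← Real.exp_mul, ← Real.exp_add]
    congr 1
    field_simp
    ring
  rw [h2]
  apply mul_le_mul_of_nonneg_right _ (Real.exp_pos _).le
  apply Real.rpow_le_rpow (Real.exp_pos _).le h1
  rw [sub_nonneg, le_div_iff₀ hβ]
  linarith

theorem sqrt_growth (k : ℕ) : 1 + 2 * √((k : ℝ) + 2) ≤ 4 * (3 / 2) ^ k := by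
  induction k with
  | zero =>
    have : √((0 : ℕ) + 2 : ℝ) ≤ 3 / 2 := by
      rw [Real.sqrt_le_left (by norm_num)]
      norm_num
    linarith
  | succ k ih =>
    have h : √(((k + 1 : ℕ) : ℝ) + 2) ≤ 3 / 2 * √((k : ℝ) + 2) := by
      rw [Real.sqrt_le_left (by positivity), mul_pow, Real.sq_sqrt (by positivity)]
      push_cast
      nlinarith [(Nat.cast_nonneg k : (0 : ℝ) ≤ k)]
    rw [pow_succ]
    nlinarith

theorem theta_le_one (hn : 0 < n) (hA : A.det ≠ 0) :
    theta A (2 * n / (Real.pi * gam A)) ≤ 1 := by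
  have hg := gam_pos hn hA
  have hn' : (0 : ℝ) < n := by exact_mod_cast hn
  have hα : 0 < 2 * n / (Real.pi * gam A) := by positivity
  apply theta_le hn hA hα zero_le_one
  refine (layer hn hA hα).trans ?_
  have he : Real.exp (-2) ≤ 1373 / 10000 := by
    have h1 := Real.exp_one_gt_d9
    have h2 : Real.exp (-2) * (Real.exp 1 * Real.exp 1) = 1 := by
      rw [← Real.exp_add, ← Real.exp_add]
      norm_num
    have h3 : (7.29 : ℝ) ≤ Real.exp 1 * Real.exp 1 := by nlinarith
    have h4 := Real.exp_pos (-2)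
    nlinarith
  have hterm : ∀ k : ℕ, (1 + 2 * √((k : ℝ) + 2)) ^ n *
      Real.exp (-(Real.pi * (2 * n / (Real.pi * gam A)) * gam A * ((k : ℝ) + 1))) ≤
      55 / 100 * (21 / 100) ^ k := by
    intro k
    have e1 : Real.exp (-(Real.pi * (2 * n / (Real.pi * gam A)) * gam A * ((k : ℝ) + 1))) =
        (Real.exp (-2) ^ (k + 1)) ^ n := by
      rw [← Real.exp_nat_mul, ← Real.exp_nat_mul]
      congr 1
      have := Real.pi_pos
      push_cast
      field_simp
    rw [e1, ← mul_pow]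
    have h5 : (1 + 2 * √((k : ℝ) + 2)) * Real.exp (-2) ^ (k + 1) ≤ 55 / 100 * (21 / 100) ^ k := by
      calc _ ≤ (4 * (3 / 2) ^ k) * Real.exp (-2) ^ (k + 1) :=
            mul_le_mul_of_nonneg_right (sqrt_growth k) (by positivity)
        _ = (4 * Real.exp (-2)) * (3 / 2 * Real.exp (-2)) ^ k := by rw [mul_pow, pow_succ]; ring
        _ ≤ (55 / 100) * (21 / 100) ^ k := by
            apply mul_le_mul _ _ (by positivity) (by norm_num)
            · linarith
            · exact pow_le_pow_left₀ (by positivity) (by linarith) k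
    have h6 : (1 + 2 * √((k : ℝ) + 2)) * Real.exp (-2) ^ (k + 1) ≤ 1 := by
      refine h5.trans ?_
      have : ((21 : ℝ) / 100) ^ k ≤ 1 := pow_le_one₀ (by norm_num) (by norm_num)
      linarith
    exact (pow_le_of_le_one (by positivity) h6 hn.ne').trans h5
  calc _ ≤ ∑' k : ℕ, ENNReal.ofReal (55 / 100 * (21 / 100) ^ k) :=
        ENNReal.tsum_le_tsum fun k => ENNReal.ofReal_le_ofReal (hterm k)
    _ = ENNReal.ofReal (∑' k : ℕ, 55 / 100 * (21 / 100) ^ k) := by
        rw [ENNReal.ofReal_tsum_of_nonneg (fun k => by positivity)]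
        exact (summable_geometric_of_lt_one (by norm_num) (by norm_num)).mul_left _
    _ ≤ ENNReal.ofReal 1 := by
        apply ENNReal.ofReal_le_ofReal
        rw [tsum_mul_left, tsum_geometric_of_lt_one (by norm_num) (by norm_num)]
        norm_num

/-- the energy and the minimum of a single lattice -/
theorem theta_le_exp (hn : 0 < n) (hA : A.det ≠ 0) {α : ℝ}
    (hα : 2 * n / (Real.pi * gam A) ≤ α) :
    theta A α ≤ Real.exp (-(n * (Real.pi * α * gam A / n - 2))) := by
  have hg := gam_pos hn hA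
  have hn' : (0 : ℝ) < n := by exact_mod_cast hn
  have hβ : 0 < 2 * n / (Real.pi * gam A) := by positivity
  refine (theta_decay hn hA hβ hα).trans ?_
  refine (mul_le_of_le_one_right (Real.exp_pos _).le (theta_le_one hn hA)).trans (le_of_eq ?_)
  congr 1
  have := Real.pi_pos
  field_simp

end Pool.Agent.K4H31.GE
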