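import Pool.Agent.K4H31.GE.Limits
import Pool.Agent.W259.GP.Main
import Pool.Agent.W259.GP.Fin

/-! Unconditional upper bound for the minimal Gaussian energies (for MP_ef2672_gt). -/

open Filter
open scoped Topology

namespace Pool.Agent.K4H31.GE

open Pool.Agent.H160R3.Herm Pool.Agent.TH220.HG

theorem uncond {ε : ℝ} (hε : 0 < ε) : ∀ᶠ n : ℕ in atTop, ∀ α : ℝ, 0 < α →
    energy n α ≤ Psi ((1 / Real.pi + ε) * α) := by
  have hpi := Real.pi_pos
  filter_upwards [Pool.Agent.W259.GP.hermite_bound Pool.Agent.W259.GP.s_main (ε / Real.pi)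
    (by positivity), eventually_gt_atTop 0] with n h1 hn α hα
  have h1' : hermite n / n ≤ 1 / Real.pi ^ 2 + ε / Real.pi := h1
  have hn' : (0 : ℝ) < n := by exact_mod_cast hn
  have hh := hermite_pos hn
  refine (energy_le hn hα).trans (Psi_mono (by positivity) ?_)
  have h2 := mul_le_mul_of_nonneg_left h1' (show 0 ≤ Real.pi * α by positivity)
  refine h2.trans (le_of_eq ?_)
  field_simp

end Pool.Agent.K4H31.GE
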